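import Pool.Agent.Helper18.HD.Fam
import Pool.Agent.Helper18.SF.Corr
import Pool.Agent.Helper18.SF.Twin1

set_option autoImplicit false

/-! Error terms for a kernel `F` against the shadow. -/

namespace Pool.Agent.Helper18.HD

open Finset Pool.Agent.Helper18.SF

variable {V : Type} [Fintype V] [DecidableEq V]

/-- Correlation of the rows of `F` with one row of `A`. -/
theorem corr2 (A F : V → V → ℝ) (h01 : ∀ x y, A x y = 0 ∨ A x y = 1) (Z : Finset V)
    (T : Finset V) (hT : ∀ z z', pat A Z z = pat A Z z' → (z ∈ T ↔ z' ∈ T)) (u : V) :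
    ∑ v, (∑ z ∈ T, (F v z - ce (pat A Z) (F v) z) * (A u z - ce (pat A Z) (A u) z)) ^ 2 ≤
      (T.card : ℝ) * (qq A F (insert u Z) - qq A F Z) := by
  rw [qq_sub A F (subset_insert u Z), mul_sum]
  refine sum_le_sum fun v _ => ?_
  have h1 : ∀ k : V → ℝ, (∀ z z', pat A (insert u Z) z = pat A (insert u Z) z' → k z = k z') →
      ∑ z ∈ T, F v z * k z = ∑ z ∈ T, ce (pat A (insert u Z)) (F v) z * k z := by
    intro k hk
    exact (sum_ce_mul_on _ _ _ hk T fun z z' h => hT z z' (corr_refine A Z u h)).symm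
  have h2 : ∑ z ∈ T, (F v z - ce (pat A Z) (F v) z) * (A u z - ce (pat A Z) (A u) z) =
      ∑ z ∈ T, (ce (pat A (insert u Z)) (F v) z - ce (pat A Z) (F v) z) *
        (A u z - ce (pat A Z) (A u) z) := by
    simp only [sub_mul, sum_sub_distrib]
    rw [h1 (fun z => A u z - ce (pat A Z) (A u) z) (fun z z' h => by
      rw [corr_meas A h01 Z u h, ce_congr (corr_refine A Z u h)])]
  rw [h2]
  have h3 := sum_mul_sq_le_sq_mul_sq T (fun z => ce (pat A (insert u Z)) (F v) z - ce (pat A Z) (F v) z)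
    (fun z => A u z - ce (pat A Z) (A u) z)
  refine h3.trans ?_
  rw [mul_comm]
  have hn : ∀ z, 0 ≤ A u z := fun z => by rcases h01 u z with h | h <;> rw [h] <;> norm_num
  have hn1 : ∀ z, A u z ≤ 1 := fun z => by rcases h01 u z with h | h <;> rw [h] <;> norm_num
  have h4 : ∑ z ∈ T, (A u z - ce (pat A Z) (A u) z) ^ 2 ≤ (T.card : ℝ) := by
    have : ∑ z ∈ T, (A u z - ce (pat A Z) (A u) z) ^ 2 ≤ ∑ _z ∈ T, (1 : ℝ) := by
      refine sum_le_sum fun z _ => ?_
      have a1 := ce_nonneg (pat A Z) (A u) hn z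
      have a2 := ce_le_one (pat A Z) (A u) hn1 z
      have a3 := hn z
      have a4 := hn1 z
      rw [sq_le_one_iff_abs_le_one, abs_le]
      constructor <;> linarith
    simpa using this
  have h5 : ∑ z ∈ T, (ce (pat A (insert u Z)) (F v) z - ce (pat A Z) (F v) z) ^ 2 ≤
      ∑ z, (ce (pat A (insert u Z)) (F v) z - ce (pat A Z) (F v) z) ^ 2 :=
    sum_le_sum_of_subset_of_nonneg (subset_univ T) fun z _ _ => sq_nonneg _
  exact mul_le_mul h4 h5 (sum_nonneg fun z _ => sq_nonneg _) (Nat.cast_nonneg _)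

/-- Deviation of the common neighbourhood of `F v` and `f v x` in the cell of `x`. -/
noncomputable def dv (S : Sys V) (F : V → V → ℝ) (Z : Finset V) (x v : V) : ℝ :=
  ∑ z ∈ cel (pat S.A Z) x, F v z * S.A (S.f v x) z -
    w S.A Z x (S.f v x) * ∑ z ∈ cel (pat S.A Z) x, F v z

/-- Splitting of the deviation over the two partitions. -/
theorem dv_split (A F : V → V → ℝ) {Z Z' : Finset V} (hZ : Z ⊆ Z') (x u v : V) :
    ∑ z ∈ cel (pat A Z) x, F v z * A u z - w A Z x u * ∑ z ∈ cel (pat A Z) x, F v z =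
      ∑ z ∈ cel (pat A Z) x,
        (F v z - ce (pat A Z') (F v) z) * (A u z - ce (pat A Z') (A u) z) +
      ∑ z ∈ cel (pat A Z) x,
        ce (pat A Z') (F v) z * (ce (pat A Z') (A u) z - ce (pat A Z) (A u) z) := by
  have hT' : ∀ z z', pat A Z' z = pat A Z' z' →
      (z ∈ cel (pat A Z) x ↔ z' ∈ cel (pat A Z) x) := by
    intro z z' h
    rw [mem_cel, mem_cel, pat_refine A hZ z z' h]
  set T := cel (pat A Z) x with hT
  have a1 : ∑ z ∈ T, ce (pat A Z') (F v) z * ce (pat A Z') (A u) z =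
      ∑ z ∈ T, F v z * ce (pat A Z') (A u) z :=
    sum_ce_mul_on (pat A Z') (F v) _ (fun z z' h => ce_congr h) T hT'
  have a2 : ∑ z ∈ T, ce (pat A Z') (A u) z * ce (pat A Z') (F v) z =
      ∑ z ∈ T, A u z * ce (pat A Z') (F v) z :=
    sum_ce_mul_on (pat A Z') (A u) _ (fun z z' h => ce_congr h) T hT'
  have a3 : ∑ z ∈ T, ce (pat A Z') (F v) z * ce (pat A Z) (A u) z =
      ∑ z ∈ T, F v z * ce (pat A Z) (A u) z :=
    sum_ce_mul_on (pat A Z') (F v) _ (fun z z' h => ce_congr (pat_refine A hZ z z' h)) T hT'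
  have a4 : ∑ z ∈ T, F v z * ce (pat A Z) (A u) z = w A Z x u * ∑ z ∈ T, F v z := by
    rw [mul_sum]
    refine sum_congr rfl fun z hz => ?_
    have e : ce (pat A Z) (A u) z = w A Z x u := by
      rw [hT, mem_cel] at hz
      unfold w
      rw [ce_congr hz]
    rw [e]
    ring
  have e1 : ∑ z ∈ T, (F v z - ce (pat A Z') (F v) z) * (A u z - ce (pat A Z') (A u) z) =
      ∑ z ∈ T, F v z * A u z - ∑ z ∈ T, F v z * ce (pat A Z') (A u) z -
        ∑ z ∈ T, A u z * ce (pat A Z') (F v) z +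
        ∑ z ∈ T, ce (pat A Z') (F v) z * ce (pat A Z') (A u) z := by
    rw [← sum_sub_distrib, ← sum_sub_distrib, ← sum_add_distrib]
    exact sum_congr rfl fun z _ => by ring
  have e2 : ∑ z ∈ T, ce (pat A Z') (F v) z * (ce (pat A Z') (A u) z - ce (pat A Z) (A u) z) =
      ∑ z ∈ T, ce (pat A Z') (F v) z * ce (pat A Z') (A u) z -
        ∑ z ∈ T, ce (pat A Z') (F v) z * ce (pat A Z) (A u) z := by
    rw [← sum_sub_distrib]
    exact sum_congr rfl fun z _ => by ring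
  have e3 : ∑ z ∈ T, ce (pat A Z') (A u) z * ce (pat A Z') (F v) z =
      ∑ z ∈ T, ce (pat A Z') (F v) z * ce (pat A Z') (A u) z :=
    sum_congr rfl fun z _ => mul_comm _ _
  rw [e1, e2, a3, a4, ← a1, ← a2, e3]
  ring

/-- The second moment of the correlations over one cell. -/
theorem cell_moment2 (S : Sys V) (F : V → V → ℝ) (Z' : Finset V) (T : Finset V) (Q : Finset V)
    (θ : ℝ) (hT : ∀ z z', pat S.A Z' z = pat S.A Z' z' → (z ∈ T ↔ z' ∈ T))
    (h1 : ∀ u, qq S.A F (insert u Z') - qq S.A F Z' ≤ θ * (Fintype.card V : ℝ) ^ 2) :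
    ∑ x' ∈ Q, ∑ v, S.A v x' * (∑ z ∈ T, (F v z - ce (pat S.A Z') (F v) z) *
        (S.A (S.f v x') z - ce (pat S.A Z') (S.A (S.f v x')) z)) ^ 2 ≤
      (T.card : ℝ) * (θ * (Fintype.card V : ℝ) ^ 3) := by
  set R : V → V → ℝ := fun v u => (∑ z ∈ T, (F v z - ce (pat S.A Z') (F v) z) *
        (S.A u z - ce (pat S.A Z') (S.A u) z)) ^ 2 with hR
  have hR0 : ∀ v u, 0 ≤ R v u := fun v u => sq_nonneg _
  calc ∑ x' ∈ Q, ∑ v, S.A v x' * R v (S.f v x')
      ≤ ∑ x', ∑ v, S.A v x' * R v (S.f v x') :=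
        Finset.sum_le_sum_of_subset_of_nonneg (Finset.subset_univ _)
          (fun x' _ _ => Finset.sum_nonneg
            (fun v _ => mul_nonneg (S.A_nonneg v x') (hR0 v _)))
    _ = ∑ v, ∑ x', S.A v x' * R v (S.f v x') := Finset.sum_comm
    _ = ∑ v, ∑ u, S.A v u * R v u :=
        Finset.sum_congr rfl (fun v _ => S.sum_swap v (R v))
    _ ≤ ∑ v, ∑ u, R v u :=
        Finset.sum_le_sum (fun v _ => Finset.sum_le_sum (fun u _ =>
          mul_le_of_le_one_left (hR0 v u) (S.A_le_one v u)))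
    _ = ∑ u, ∑ v, R v u := Finset.sum_comm
    _ ≤ ∑ _u : V, (T.card : ℝ) * (θ * (Fintype.card V : ℝ) ^ 2) :=
        Finset.sum_le_sum (fun u _ => (corr2 S.A F S.h01 Z' T hT u).trans
          (mul_le_mul_of_nonneg_left (h1 u) (Nat.cast_nonneg _)))
    _ = (T.card : ℝ) * (θ * (Fintype.card V : ℝ) ^ 3) := by
        rw [Finset.sum_const, nsmul_eq_mul, Finset.card_univ]
        ring

omit [DecidableEq V] in
/-- Cauchy-Schwarz with weights for a double sum. -/
theorem cs_double2 (a r : V → V → ℝ) (ha : ∀ x v, 0 ≤ a x v) :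
    (∑ x, ∑ v, a x v * |r x v|) ^ 2 ≤ (∑ x, ∑ v, a x v) * ∑ x, ∑ v, a x v * r x v ^ 2 := by
  have h := Finset.sum_sq_le_sum_mul_sum_of_sq_le_mul (univ : Finset (V × V))
    (r := fun p => a p.1 p.2 * |r p.1 p.2|) (f := fun p => a p.1 p.2)
    (g := fun p => a p.1 p.2 * r p.1 p.2 ^ 2)
    (fun p _ => ha _ _) (fun p _ => mul_nonneg (ha _ _) (sq_nonneg _))
    (fun p _ => le_of_eq (by
      show (a p.1 p.2 * |r p.1 p.2|) ^ 2 = a p.1 p.2 * (a p.1 p.2 * r p.1 p.2 ^ 2)
      rw [mul_pow, sq_abs]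
      ring))
  simpa only [Fintype.sum_prod_type] using h

theorem dv_bound (S : Sys V) (F : V → V → ℝ) (hF0 : ∀ x y, 0 ≤ F x y) (hF1 : ∀ x y, F x y ≤ 1)
    (Z Z' : Finset V) (hZ : Z ⊆ Z') (ε θ : ℝ) (hε : 0 ≤ ε) (hθ : 0 ≤ θ)
    (h1 : ∀ u, qq S.A F (insert u Z') - qq S.A F Z' ≤ θ * (Fintype.card V : ℝ) ^ 2)
    (h2 : q S.A Z' - q S.A Z ≤ ε * (Fintype.card V : ℝ) ^ 2) :
    ∑ x, (1 / ((cel (pat S.A Z) x).card : ℝ)) * ∑ v, S.A v x * |dv S F Z x v| ≤
      (2 ^ Z.card * Real.sqrt θ + Real.sqrt ε) * (Fintype.card V : ℝ) ^ 2 := by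
  set n : ℝ := (Fintype.card V : ℝ) with hn
  have hn0 : 0 ≤ n := Nat.cast_nonneg _
  set c := pat S.A Z with hc
  set c' := pat S.A Z' with hc'
  set φ : V → ℝ := fun x => 1 / ((cel c x).card : ℝ) with hφ
  have hφ0 : ∀ x, 0 ≤ φ x := fun x => by positivity
  have hφc : ∀ z z', c z = c z' → φ z = φ z' := by
    intro z z' h
    show 1 / ((cel c z).card : ℝ) = 1 / ((cel c z').card : ℝ)
    rw [cel_congr h]
  set D : V → V → ℝ := fun v z => ce c' (S.A v) z - ce c (S.A v) z with hD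
  set R : V → V → V → ℝ := fun x v u => ∑ z ∈ cel c x, (F v z - ce c' (F v) z) *
        (S.A u z - ce c' (S.A u) z) with hR
  have hK : ∑ x, φ x ≤ 2 ^ Z.card := by
    have h := sum_inv_card c
    show ∑ x, 1 / ((cel c x).card : ℝ) ≤ 2 ^ Z.card
    rw [h]
    exact card_pat_le S.A Z
  have hK0 : 0 ≤ ∑ x, φ x := Finset.sum_nonneg (fun x _ => hφ0 x)
  have hpt : ∀ x v, |dv S F Z x v| ≤ |R x v (S.f v x)| + ∑ z ∈ cel c x, |D (S.f v x) z| := by
    intro x v
    have e : dv S F Z x v = R x v (S.f v x) + ∑ z ∈ cel c x, ce c' (F v) z * D (S.f v x) z :=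
      dv_split S.A F hZ x (S.f v x) v
    rw [e]
    refine (abs_add_le _ _).trans (add_le_add le_rfl ?_)
    refine (Finset.abs_sum_le_sum_abs _ _).trans (Finset.sum_le_sum (fun z _ => ?_))
    have b0 := ce_nonneg c' (F v) (hF0 v) z
    have b1 := ce_le_one c' (F v) (hF1 v) z
    rw [abs_mul, abs_of_nonneg b0]
    exact mul_le_of_le_one_left (abs_nonneg _) b1
  -- first part
  have hX1 : ∑ x, φ x * ∑ v, S.A v x * |R x v (S.f v x)| ≤ 2 ^ Z.card * Real.sqrt θ * n ^ 2 := by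
    have hcs := cs_double2 (V := V) (fun x v => φ x * S.A v x) (fun x v => R x v (S.f v x))
      (fun x v => mul_nonneg (hφ0 x) (S.A_nonneg v x))
    have e1 : ∑ x, ∑ v, φ x * S.A v x * |R x v (S.f v x)| =
        ∑ x, φ x * ∑ v, S.A v x * |R x v (S.f v x)| := by
      refine Finset.sum_congr rfl (fun x _ => ?_)
      rw [Finset.mul_sum]
      exact Finset.sum_congr rfl (fun v _ => by ring)
    have e2 : ∑ x, ∑ v, φ x * S.A v x ≤ 2 ^ Z.card * n := by
      calc ∑ x, ∑ v, φ x * S.A v x ≤ ∑ x, ∑ _v : V, φ x :=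
            Finset.sum_le_sum (fun x _ => Finset.sum_le_sum (fun v _ =>
              mul_le_of_le_one_right (hφ0 x) (S.A_le_one v x)))
        _ = (∑ x, φ x) * n := by
            rw [Finset.sum_mul]
            refine Finset.sum_congr rfl (fun x _ => ?_)
            rw [Finset.sum_const, nsmul_eq_mul, Finset.card_univ]
            ring
        _ ≤ 2 ^ Z.card * n := mul_le_mul_of_nonneg_right hK hn0
    have e3 : ∑ x, ∑ v, φ x * S.A v x * R x v (S.f v x) ^ 2 ≤ 2 ^ Z.card * (θ * n ^ 3) := by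
      set G : V → ℝ := fun x => ∑ v, S.A v x * R x v (S.f v x) ^ 2 with hG
      have g1 : ∑ x, ∑ v, φ x * S.A v x * R x v (S.f v x) ^ 2 = ∑ x, G x * φ x := by
        refine Finset.sum_congr rfl (fun x _ => ?_)
        rw [mul_comm, Finset.mul_sum]
        exact Finset.sum_congr rfl (fun v _ => by ring)
      rw [g1, ← sum_ce_mul c G φ hφc]
      have g2 : ∀ x, ce c G x ≤ θ * n ^ 3 := by
        intro x
        unfold ce
        rw [div_le_iff₀ (cel_card_pos c x)]
        have hT' : ∀ z z', c' z = c' z' → (z ∈ cel c x ↔ z' ∈ cel c x) := by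
          intro z z' h
          rw [mem_cel, mem_cel, hc, pat_refine S.A hZ z z' h]
        have g3 := cell_moment2 S F Z' (cel c x) (cel c x) θ hT' h1
        calc ∑ x' ∈ cel c x, G x' = ∑ x' ∈ cel c x, ∑ v, S.A v x' *
              (∑ z ∈ cel c x, (F v z - ce (pat S.A Z') (F v) z) *
              (S.A (S.f v x') z - ce (pat S.A Z') (S.A (S.f v x')) z)) ^ 2 := by
              refine Finset.sum_congr rfl (fun x' hx' => ?_)
              rw [mem_cel] at hx'
              simp only [hG, hR]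
              rw [cel_congr hx']
          _ ≤ _ := g3
          _ = θ * n ^ 3 * ((cel c x).card : ℝ) := by ring
      calc ∑ x, ce c G x * φ x ≤ ∑ x, (θ * n ^ 3) * φ x :=
            Finset.sum_le_sum (fun x _ => mul_le_mul_of_nonneg_right (g2 x) (hφ0 x))
        _ = (∑ x, φ x) * (θ * n ^ 3) := by
            rw [← Finset.mul_sum, mul_comm]
        _ ≤ 2 ^ Z.card * (θ * n ^ 3) := mul_le_mul_of_nonneg_right hK (by positivity)
    rw [← e1]
    have hpos : 0 ≤ 2 ^ Z.card * Real.sqrt θ * n ^ 2 := by positivity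
    refine abs_le_of_sq_le_sq' ?_ hpos |>.2
    calc (∑ x, ∑ v, φ x * S.A v x * |R x v (S.f v x)|) ^ 2
        ≤ (∑ x, ∑ v, φ x * S.A v x) * ∑ x, ∑ v, φ x * S.A v x * R x v (S.f v x) ^ 2 := hcs
      _ ≤ (2 ^ Z.card * n) * (2 ^ Z.card * (θ * n ^ 3)) :=
          mul_le_mul e2 e3 (Finset.sum_nonneg (fun x _ => Finset.sum_nonneg (fun v _ =>
            mul_nonneg (mul_nonneg (hφ0 x) (S.A_nonneg v x)) (sq_nonneg _)))) (by positivity)
      _ = (2 ^ Z.card) ^ 2 * (Real.sqrt θ) ^ 2 * (n ^ 2) ^ 2 := by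
          rw [Real.sq_sqrt hθ]
          ring
      _ = (2 ^ Z.card * Real.sqrt θ * n ^ 2) ^ 2 := by ring
  -- second part
  have hX2 : ∑ x, φ x * ∑ v, S.A v x * ∑ z ∈ cel c x, |D (S.f v x) z| ≤ Real.sqrt ε * n ^ 2 := by
    have hsw : ∀ x, ∑ v, S.A v x * ∑ z ∈ cel c x, |D (S.f v x) z| =
        ∑ u, S.A u x * ∑ z ∈ cel c x, |D u z| := by
      intro x
      have h3 : ∀ v, S.A v x * ∑ z ∈ cel c x, |D (S.f v x) z| =
          S.A x v * ∑ z ∈ cel c x, |D (S.f x v) z| := by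
        intro v
        rcases S.h01 x v with h | h
        · rw [S.symm v x, h, zero_mul, zero_mul]
        · rw [S.symm v x, S.fs x v h]
      rw [sum_congr rfl fun v _ => h3 v, S.sum_swap x (fun y => ∑ z ∈ cel c x, |D y z|)]
      exact sum_congr rfl fun u _ => by rw [S.symm x u]
    simp only [hsw]
    have f1 : ∑ x, φ x * ∑ v, S.A v x * ∑ z ∈ cel c x, |D v z| ≤ ∑ v, ∑ z, |D v z| := by
      calc ∑ x, φ x * ∑ v, S.A v x * ∑ z ∈ cel c x, |D v z|
          ≤ ∑ x, φ x * ∑ v, ∑ z ∈ cel c x, |D v z| :=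
            Finset.sum_le_sum (fun x _ => mul_le_mul_of_nonneg_left
              (Finset.sum_le_sum (fun v _ => mul_le_of_le_one_left
                (Finset.sum_nonneg (fun z _ => abs_nonneg _)) (S.A_le_one v x))) (hφ0 x))
        _ = ∑ x, ∑ v, ce c (fun z => |D v z|) x := by
            refine Finset.sum_congr rfl (fun x _ => ?_)
            rw [Finset.mul_sum]
            refine Finset.sum_congr rfl (fun v _ => ?_)
            simp only [hφ, ce]
            ring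
        _ = ∑ v, ∑ x, ce c (fun z => |D v z|) x := Finset.sum_comm
        _ = ∑ v, ∑ z, |D v z| := Finset.sum_congr rfl (fun v _ => sum_ce c _)
    refine f1.trans ?_
    have hcs := cs_double2 (V := V) (fun _ _ => 1) D (fun _ _ => zero_le_one)
    simp only [one_mul] at hcs
    have hq : ∑ v, ∑ z, D v z ^ 2 ≤ ε * n ^ 2 := by
      have := q_sub S.A hZ
      rw [← this]
      exact h2
    refine abs_le_of_sq_le_sq' ?_ (by positivity) |>.2
    calc (∑ v, ∑ z, |D v z|) ^ 2 ≤ (∑ _x : V, ∑ _v : V, (1 : ℝ)) * ∑ v, ∑ z, D v z ^ 2 := hcs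
      _ ≤ n ^ 2 * (ε * n ^ 2) := by
          have : (∑ _x : V, ∑ _v : V, (1 : ℝ)) = n ^ 2 := by
            simp [hn, sq]
          rw [this]
          exact mul_le_mul_of_nonneg_left hq (by positivity)
      _ = (Real.sqrt ε) ^ 2 * (n ^ 2) ^ 2 := by
          rw [Real.sq_sqrt hε]
          ring
      _ = (Real.sqrt ε * n ^ 2) ^ 2 := by ring
  calc ∑ x, φ x * ∑ v, S.A v x * |dv S F Z x v|
      ≤ ∑ x, (φ x * ∑ v, S.A v x * |R x v (S.f v x)| +
          φ x * ∑ v, S.A v x * ∑ z ∈ cel c x, |D (S.f v x) z|) := by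
        refine Finset.sum_le_sum (fun x _ => ?_)
        rw [← mul_add, ← Finset.sum_add_distrib]
        refine mul_le_mul_of_nonneg_left (Finset.sum_le_sum (fun v _ => ?_)) (hφ0 x)
        rw [← mul_add]
        exact mul_le_mul_of_nonneg_left (hpt x v) (S.A_nonneg v x)
    _ = ∑ x, φ x * ∑ v, S.A v x * |R x v (S.f v x)| +
          ∑ x, φ x * ∑ v, S.A v x * ∑ z ∈ cel c x, |D (S.f v x) z| := Finset.sum_add_distrib
    _ ≤ 2 ^ Z.card * Real.sqrt θ * n ^ 2 + Real.sqrt ε * n ^ 2 := add_le_add hX1 hX2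
    _ = (2 ^ Z.card * Real.sqrt θ + Real.sqrt ε) * n ^ 2 := by ring

end Pool.Agent.Helper18.HD
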