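import Pool.Agent.Helper18.SF.Two

set_option autoImplicit false

/-! Two nested partitions, with a second energy that depends on the first partition. -/

namespace Pool.Agent.Helper18.HD

open Finset Pool.Agent.Helper18.SF

/-- two-scale pigeonhole, with antitone precision -/
theorem fam_aux {V : Type} [DecidableEq V] (θ : ℕ → ℝ) (hθ : ∀ s, 0 < θ s)
    (hanti : Antitone θ) {ε : ℝ} (hε : 0 < ε)
    (F : Finset V → ℝ) (G : Finset V → Finset V → ℝ) (M : ℝ) (hF0 : ∀ Z, 0 ≤ F Z)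
    (hF1 : ∀ Z, F Z ≤ M) (hG0 : ∀ Z Y, 0 ≤ G Z Y) (hG1 : ∀ Z Y, G Z Y ≤ M)
    (hFm : ∀ Z u, F Z ≤ F (insert u Z)) (hGm : ∀ Z Y u, G Z Y ≤ G Z (insert u Y)) :
    ∃ Z Z' : Finset V, Z ⊆ Z' ∧ Z'.card ≤ stg (fun s => θ s / 2) (⌊1 / ε⌋₊ + 1) ∧
      (∀ u, F (insert u Z) - F Z ≤ θ 0 * M) ∧ F Z' - F Z ≤ ε * M ∧
      ∀ u, G Z (insert u Z') - G Z Z' ≤ θ Z.card * M := by
  have hM : 0 ≤ M := (hF0 ∅).trans (hF1 ∅)
  have step : ∀ Z : Finset V, ∃ Z', Z ⊆ Z' ∧ Z'.card ≤ Z.card + (⌊1 / (θ Z.card / 2)⌋₊ + 1) ∧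
      ∀ u, (F (insert u Z') + G Z (insert u Z')) - (F Z' + G Z Z') ≤ θ Z.card / 2 * (2 * M) :=
    fun Z => greedy (fun Y => F Y + G Z Y) (2 * M)
      (fun Y => add_nonneg (hF0 Y) (hG0 Z Y)) (fun Y => by
        have := hF1 Y
        have := hG1 Z Y
        linarith) (half_pos (hθ _)) Z
  choose nx hnx1 hnx2 hnx3 using step
  have hnF : ∀ Z u, F (insert u (nx Z)) - F (nx Z) ≤ θ Z.card * M := by
    intro Z u
    have h1 := hnx3 Z u
    have h2 := hGm Z (nx Z) u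
    linarith
  have hnG : ∀ Z u, G Z (insert u (nx Z)) - G Z (nx Z) ≤ θ Z.card * M := by
    intro Z u
    have h1 := hnx3 Z u
    have h2 := hFm (nx Z) u
    linarith
  let W : ℕ → Finset V := fun i => Nat.rec (nx ∅) (fun _ Z => nx Z) i
  have hW0 : W 0 = nx ∅ := rfl
  have hWs : ∀ i, W (i + 1) = nx (W i) := fun i => rfl
  have mono_size : ∀ s t : ℕ, s ≤ t →
      s + (⌊1 / (θ s / 2)⌋₊ + 1) ≤ t + (⌊1 / (θ t / 2)⌋₊ + 1) := by
    intro s t hst
    have : ⌊1 / (θ s / 2)⌋₊ ≤ ⌊1 / (θ t / 2)⌋₊ := by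
      apply Nat.floor_mono
      apply one_div_le_one_div_of_le (half_pos (hθ t))
      have := hanti hst
      linarith
    omega
  have hcard : ∀ i, (W i).card ≤ stg (fun s => θ s / 2) i := by
    intro i
    induction i with
    | zero =>
      have := hnx2 ∅
      rw [hW0]
      simpa [stg] using this
    | succ i ih =>
      rw [hWs]
      exact (hnx2 (W i)).trans (mono_size _ _ ih)
  have hstable : ∀ i u, F (insert u (W i)) - F (W i) ≤ θ 0 * M := by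
    intro i u
    rcases i with _ | i
    · rw [hW0]
      simpa using hnF ∅ u
    · rw [hWs]
      refine (hnF (W i) u).trans ?_
      exact mul_le_mul_of_nonneg_right (hanti (Nat.zero_le _)) hM
  have hstg : Monotone (stg (fun s => θ s / 2)) := by
    apply monotone_nat_of_le_succ
    intro i
    simp only [stg]
    omega
  by_cases hex : ∃ i, i ≤ ⌊1 / ε⌋₊ ∧ F (W (i + 1)) - F (W i) ≤ ε * M
  · obtain ⟨i, hi, h⟩ := hex
    refine ⟨W i, W (i + 1), ?_, ?_, hstable i, h, ?_⟩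
    · rw [hWs]; exact hnx1 _
    · exact (hcard (i + 1)).trans (hstg (by omega))
    · rw [hWs]; exact hnG (W i)
  · push Not at hex
    exfalso
    have key : ∀ k : ℕ, k ≤ ⌊1 / ε⌋₊ + 1 → F (W 0) + k * (ε * M) ≤ F (W k) ∧
        (0 < k → F (W 0) + k * (ε * M) < F (W k)) := by
      intro k
      induction k with
      | zero => intro _; simp
      | succ k ih =>
        intro hk
        have h1 := (ih (by omega)).1
        have h2 := hex k (by omega)
        constructor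
        · push_cast; nlinarith
        · intro _; push_cast; nlinarith
    have h5 := (key _ le_rfl).2 (by omega)
    have h6 : (1 / ε) < ((⌊1 / ε⌋₊ + 1 : ℕ) : ℝ) := by
      push_cast; exact Nat.lt_floor_add_one _
    have h7 : 1 ≤ ((⌊1 / ε⌋₊ + 1 : ℕ) : ℝ) * ε := by
      rw [div_lt_iff₀ hε] at h6; linarith
    have h8 : M ≤ ((⌊1 / ε⌋₊ + 1 : ℕ) : ℝ) * (ε * M) := by
      rw [← mul_assoc]; nlinarith
    have := hF0 (W 0)
    have := hF1 (W (⌊1 / ε⌋₊ + 1))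
    linarith

/-- Energy of `F` on the pattern partition of `A`. -/
noncomputable def qq {V : Type} [Fintype V] [DecidableEq V] (A F : V → V → ℝ) (Z : Finset V) : ℝ :=
  ∑ v, ∑ z, (ce (pat A Z) (F v) z) ^ 2

theorem qq_sub {V : Type} [Fintype V] [DecidableEq V] (A F : V → V → ℝ) {Z Z' : Finset V}
    (h : Z ⊆ Z') : qq A F Z' - qq A F Z =
      ∑ v, ∑ z, (ce (pat A Z') (F v) z - ce (pat A Z) (F v) z) ^ 2 := by
  unfold qq
  rw [← sum_sub_distrib]
  exact sum_congr rfl fun v _ => (pyth (pat A Z) (pat A Z') (pat_refine A h) (F v)).symm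

theorem qq_mono {V : Type} [Fintype V] [DecidableEq V] (A F : V → V → ℝ) {Z Z' : Finset V}
    (h : Z ⊆ Z') : qq A F Z ≤ qq A F Z' := by
  have h1 : 0 ≤ qq A F Z' - qq A F Z := by
    rw [qq_sub A F h]
    exact sum_nonneg fun v _ => sum_nonneg fun z _ => sq_nonneg _
  linarith

theorem qq_nonneg {V : Type} [Fintype V] [DecidableEq V] (A F : V → V → ℝ) (Z : Finset V) :
    0 ≤ qq A F Z := sum_nonneg fun _ _ => sum_nonneg fun _ _ => sq_nonneg _

theorem qq_le {V : Type} [Fintype V] [DecidableEq V] (A F : V → V → ℝ)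
    (h0 : ∀ x y, 0 ≤ F x y) (h1 : ∀ x y, F x y ≤ 1) (Z : Finset V) :
    qq A F Z ≤ (Fintype.card V : ℝ) ^ 2 := by
  unfold qq
  calc ∑ v, ∑ z, (ce (pat A Z) (F v) z) ^ 2 ≤ ∑ _v : V, ∑ _z : V, (1 : ℝ) := by
        refine sum_le_sum fun v _ => sum_le_sum fun z _ => ?_
        have h1 := ce_nonneg (pat A Z) (F v) (h0 v) z
        have h2 := ce_le_one (pat A Z) (F v) (fun z => by
          have := ‹∀ x y, F x y ≤ 1› v z
          exact this) z
        nlinarith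
    _ = (Fintype.card V : ℝ) ^ 2 := by
        simp only [sum_const, card_univ, nsmul_eq_mul, mul_one]
        ring

/-- Two scales for `A` and a family `F Z` of kernels. -/
theorem two_fam (ε : ℝ) (hε : 0 < ε) (θ : ℕ → ℝ) (hθ : ∀ k, 0 < θ k) :
    ∃ M : ℕ, ∀ (V : Type) [Fintype V] [DecidableEq V] (A : V → V → ℝ)
      (F : Finset V → V → V → ℝ), (∀ x y, A x y = 0 ∨ A x y = 1) →
      (∀ Z x y, 0 ≤ F Z x y) → (∀ Z x y, F Z x y ≤ 1) →
      ∃ Z Z' : Finset V, Z ⊆ Z' ∧ Z.card ≤ M ∧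
        (∀ u, q A (insert u Z) - q A Z ≤ θ 0 * (Fintype.card V : ℝ) ^ 2) ∧
        (∀ u, qq A (F Z) (insert u Z') - qq A (F Z) Z' ≤
          θ Z.card * (Fintype.card V : ℝ) ^ 2) ∧
        q A Z' - q A Z ≤ ε * (Fintype.card V : ℝ) ^ 2 := by
  refine ⟨stg (fun s => rmin θ s / 2) (⌊1 / ε⌋₊ + 1), ?_⟩
  intro V _ _ A F h01 hF0 hF1
  obtain ⟨Z, Z', h1, h2, h3, h4, h5⟩ := fam_aux (rmin θ) (rmin_pos θ hθ) (rmin_anti θ) hε
    (q A) (fun Z Y => qq A (F Z) Y) ((Fintype.card V : ℝ) ^ 2) (q_nonneg A) (q_le A h01)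
    (fun Z Y => qq_nonneg A (F Z) Y) (fun Z Y => qq_le A (F Z) (hF0 Z) (hF1 Z) Y)
    (fun Z u => q_mono A (subset_insert u Z)) (fun Z Y u => qq_mono A (F Z) (subset_insert u Y))
  refine ⟨Z, Z', h1, (card_le_card h1).trans h2, h3, fun u => (h5 u).trans ?_, h4⟩
  exact mul_le_mul_of_nonneg_right (rmin_le θ _) (sq_nonneg _)

end Pool.Agent.Helper18.HD
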