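import Pool.Agent.Helper18.HD.Pt
import Pool.Agent.Helper18.SF.Half

set_option autoImplicit false

/-! The shadow has density at most one half between any two large sets. -/

namespace Pool.Agent.Helper18.HD

open Finset Pool.Agent.Helper18.SF

theorem half_sys (ε : ℝ) (hε : 0 < ε) : ∃ N : ℕ, ∀ (V : Type) [Fintype V] [DecidableEq V],
    N ≤ Fintype.card V → ∀ S : Sys V, ∀ U W : Finset V,
      ∑ x ∈ U, ∑ y ∈ W, S.A x y ≤
        (1 / 2) * ((U.card : ℝ) * (W.card : ℝ)) + ε * (Fintype.card V : ℝ) ^ 2 := by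
  set δ : ℝ := min ε 1 with hδdef
  have hδ : 0 < δ := lt_min hε one_pos
  have hδ1 : δ ≤ 1 := min_le_right _ _
  have hδε : δ ≤ ε := min_le_left _ _
  set η : ℝ := δ / 4 with hηdef
  set κ : ℝ := δ / 8 with hκdef
  set t : ℝ := δ / 8 with htdef
  set s : ℝ := δ ^ 3 / 1024 with hsdef
  have hη : 0 < η := by positivity
  have hκ : 0 < κ := by positivity
  have ht : 0 < t := by positivity
  have hs : 0 < s := by positivity
  set r : ℕ → ℝ := fun k => min (t ^ 2) (s / 2 ^ k) with hr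
  have hrpos : ∀ k, 0 < r k := fun k => by
    simp only [hr]
    exact lt_min (by positivity) (by positivity)
  obtain ⟨M, hM⟩ := two_fam (s ^ 2) (by positivity) (fun k => (r k) ^ 2)
    (fun k => pow_pos (hrpos k) 2)
  obtain ⟨N, hN⟩ := exists_nat_gt (128 * 2 ^ M / δ ^ 3)
  refine ⟨N + 1, ?_⟩
  intro V _ _ hcard S U W
  set n : ℝ := (Fintype.card V : ℝ) with hn
  have hnN : (N : ℝ) + 1 ≤ n := by
    rw [hn]
    exact_mod_cast hcard
  have hnpos : 0 < n := by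
    have : (0 : ℝ) ≤ N := Nat.cast_nonneg _
    linarith
  have hnbig : 128 * 2 ^ M ≤ δ ^ 3 * n := by
    have h1 : 128 * 2 ^ M / δ ^ 3 < n := by linarith
    rw [div_lt_iff₀ (by positivity)] at h1
    linarith
  obtain ⟨Z, Z', hZZ, hZM, h0, h1, h2⟩ := hM V S.A (fun Z => FF S η Z) S.h01
    (fun Z x y => FF_nonneg S η Z x y) (fun Z x y => FF_le_one S η Z x y)
  have hs1 : Real.sqrt (s ^ 2) = s := Real.sqrt_sq hs.le
  have hs2 : ∀ k, Real.sqrt ((r k) ^ 2) = r k := fun k => Real.sqrt_sq (hrpos k).le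
  have hX := dv_bound S (FF S η Z) (FF_nonneg S η Z) (FF_le_one S η Z) Z Z' hZZ (s ^ 2)
    ((r Z.card) ^ 2) (by positivity) (by positivity) h1 h2
  rw [hs1, hs2] at hX
  have hX2 : (2 ^ Z.card * r Z.card + s) * (Fintype.card V : ℝ) ^ 2 ≤ 2 * s * n ^ 2 := by
    have h5 : r Z.card ≤ s / 2 ^ Z.card := min_le_right _ _
    have h6 : (2 : ℝ) ^ Z.card * r Z.card ≤ s := by
      calc (2 : ℝ) ^ Z.card * r Z.card ≤ 2 ^ Z.card * (s / 2 ^ Z.card) :=
            mul_le_mul_of_nonneg_left h5 (by positivity)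
        _ = s := by
            have : (2 : ℝ) ^ Z.card ≠ 0 := by positivity
            field_simp
    rw [← hn]
    have h7 : 0 ≤ n ^ 2 := by positivity
    nlinarith
  have hheavy := heavy_sum S η hη Z κ (2 * s * n ^ 2) hκ (le_trans hX hX2)
  rw [← hn] at hheavy
  have hset := on_sets S Z (r 0) t (hrpos 0).le ht.le (min_le_left _ _) h0 U W
  rw [← hn] at hset
  have hn2 : 0 < n ^ 2 := by positivity
  have h2M : (2 : ℝ) ^ Z.card ≤ 2 ^ M := pow_le_pow_right₀ (by norm_num) hZM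
  have e1 : n * 2 ^ Z.card / (2 * κ * η) ≤ δ / 8 * n ^ 2 := by
    have hden : 2 * κ * η = δ ^ 2 / 16 := by
      rw [hκdef, hηdef]
      ring
    rw [hden, div_le_iff₀ (by positivity)]
    have f1 : n * 2 ^ Z.card ≤ n * 2 ^ M := mul_le_mul_of_nonneg_left h2M hnpos.le
    have f2 : n * (128 * 2 ^ M) ≤ n * (δ ^ 3 * n) := mul_le_mul_of_nonneg_left hnbig hnpos.le
    nlinarith
  have e2 : 2 * s * n ^ 2 / (κ * η) = δ / 16 * n ^ 2 := by
    rw [hsdef, hκdef, hηdef]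
    field_simp
    ring
  rw [e2] at hheavy
  rw [← heavy_eq] at hheavy
  classical
  have hpt : ∀ x y, w S.A Z x y ≤ (1 / 2 + η) +
      w S.A Z x y * (if 1 / 2 + η < w S.A Z x y then 1 else 0) := by
    intro x y
    have hw0 : 0 ≤ w S.A Z x y := ce_nonneg _ _ (fun z => S.A_nonneg y z) _
    split_ifs with h
    · linarith
    · rw [mul_zero, add_zero]
      exact not_lt.mp h
  have hnn : ∀ x y, 0 ≤ w S.A Z x y * (if 1 / 2 + η < w S.A Z x y then (1 : ℝ) else 0) := by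
    intro x y
    have hw0 : 0 ≤ w S.A Z x y := ce_nonneg _ _ (fun z => S.A_nonneg y z) _
    split_ifs
    · linarith
    · simp
  have hsum : ∑ x ∈ U, ∑ y ∈ W, w S.A Z x y ≤ (1 / 2 + η) * ((U.card : ℝ) * (W.card : ℝ)) +
      ∑ x, ∑ y, w S.A Z x y * (if 1 / 2 + η < w S.A Z x y then (1 : ℝ) else 0) := by
    calc ∑ x ∈ U, ∑ y ∈ W, w S.A Z x y ≤ ∑ x ∈ U, ∑ y ∈ W, ((1 / 2 + η) +
          w S.A Z x y * (if 1 / 2 + η < w S.A Z x y then (1 : ℝ) else 0)) :=
          sum_le_sum fun x _ => sum_le_sum fun y _ => hpt x y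
      _ = (1 / 2 + η) * ((U.card : ℝ) * (W.card : ℝ)) + ∑ x ∈ U, ∑ y ∈ W,
          w S.A Z x y * (if 1 / 2 + η < w S.A Z x y then (1 : ℝ) else 0) := by
          simp only [sum_add_distrib, sum_const, nsmul_eq_mul]
          ring
      _ ≤ _ := by
          refine add_le_add le_rfl ?_
          calc ∑ x ∈ U, ∑ y ∈ W, w S.A Z x y * (if 1 / 2 + η < w S.A Z x y then (1 : ℝ) else 0)
              ≤ ∑ x ∈ U, ∑ y, w S.A Z x y *
                (if 1 / 2 + η < w S.A Z x y then (1 : ℝ) else 0) :=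
                sum_le_sum fun x _ => sum_le_univ_sum_of_nonneg fun y => hnn x y
            _ ≤ _ := sum_le_univ_sum_of_nonneg fun x => sum_nonneg fun y _ => hnn x y
  have hUW : (U.card : ℝ) * (W.card : ℝ) ≤ n ^ 2 := by
    have hU : (U.card : ℝ) ≤ n := by
      rw [hn]
      exact_mod_cast Finset.card_le_univ U
    have hW : (W.card : ℝ) ≤ n := by
      rw [hn]
      exact_mod_cast Finset.card_le_univ W
    rw [sq]
    exact mul_le_mul hU hW (Nat.cast_nonneg _) hnpos.le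
  have e3 : η * ((U.card : ℝ) * (W.card : ℝ)) ≤ δ / 4 * n ^ 2 := by
    rw [hηdef]
    exact mul_le_mul_of_nonneg_left hUW (by positivity)
  have e4 : κ * n ^ 2 = δ / 8 * n ^ 2 := by rw [hκdef]
  have e5 : t * n ^ 2 = δ / 8 * n ^ 2 := by rw [htdef]
  have e6 : δ * n ^ 2 ≤ ε * n ^ 2 := mul_le_mul_of_nonneg_right hδε hn2.le
  have e7 : 0 < δ * n ^ 2 := by positivity
  nlinarith

theorem half_density (ε : ℝ) (hε : 0 < ε) : ∃ N : ℕ, ∀ n : ℕ, N ≤ n →
    ∀ H : Finset (Finset (Fin n)), (∀ e ∈ H, e.card = 3) →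
      (∀ W : Finset (Fin n), W.card = 7 → (H.filter (fun e => e ⊆ W)).card < 4) →
      ∀ U W : Finset (Fin n),
        (((U ×ˢ W).filter (fun q => q.1 ≠ q.2 ∧ ∃ e ∈ H, q.1 ∈ e ∧ q.2 ∈ e)).card : ℝ) ≤
          (1 / 2) * ((U.card : ℝ) * (W.card : ℝ)) + ε * (n : ℝ) ^ 2 := by
  obtain ⟨N, hN⟩ := half_sys (ε / 2) (by positivity)
  obtain ⟨M, hM⟩ := exists_nat_gt (12 / ε)
  refine ⟨max N (max M 7), ?_⟩
  intro n hn H h3 h7 U W
  have hn1 : N ≤ n := le_trans (le_max_left _ _) hn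
  have hn2 : M ≤ n := le_trans (le_trans (le_max_left _ _) (le_max_right _ _)) hn
  have hn3 : 7 ≤ n := le_trans (le_trans (le_max_right _ _) (le_max_right _ _)) hn
  obtain ⟨S, hS1, hS2, -⟩ := exists_sys' H h3 (small_of_seven hn3 H h7)
  have h := hN (Fin n) (by rw [Fintype.card_fin]; exact hn1) S U W
  rw [Fintype.card_fin] at h hS2
  have hL : (((U ×ˢ W).filter (fun q => q.1 ≠ q.2 ∧ ∃ e ∈ H, q.1 ∈ e ∧ q.2 ∈ e)).card : ℝ) =
      ∑ x ∈ U, ∑ y ∈ W, ind H x y := links_eq H U W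
  rw [hL]
  have hAind : ∀ x y, S.A x y ≤ ind H x y := by
    intro x y
    unfold ind
    rcases S.h01 x y with h0 | h0
    · rw [h0]
      split_ifs <;> norm_num
    · rw [h0, if_pos (hS1 x y h0)]
  have hdiff : ∑ x, ∑ y, (ind H x y - S.A x y) ≤ 6 * (n : ℝ) := by
    have e1 : ∑ x, ∑ y, (ind H x y - S.A x y) =
        (((univ : Finset (Fin n × Fin n)).filter (fun p => (p.1 ≠ p.2 ∧
          ∃ e ∈ H, p.1 ∈ e ∧ p.2 ∈ e) ∧ S.A p.1 p.2 = 0)).card : ℝ) := by
      rw [card_filter]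
      push_cast
      rw [Fintype.sum_prod_type]
      refine Finset.sum_congr rfl (fun x _ => Finset.sum_congr rfl (fun y _ => ?_))
      unfold ind
      rcases S.h01 x y with h0 | h0
      · by_cases hp : (x ≠ y ∧ ∃ e ∈ H, x ∈ e ∧ y ∈ e)
        · rw [if_pos hp, if_pos ⟨hp, h0⟩, h0]
          norm_num
        · rw [if_neg hp, if_neg (fun h' => hp h'.1), h0]
          norm_num
      · have hp := hS1 x y h0
        rw [if_pos hp, if_neg (fun h' => by rw [h0] at h'; norm_num at h'), h0]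
        norm_num
    rw [e1]
    exact_mod_cast hS2
  have hcnn : ∀ x y, 0 ≤ ind H x y - S.A x y := fun x y => sub_nonneg.mpr (hAind x y)
  have hUW : ∑ x ∈ U, ∑ y ∈ W, (ind H x y - S.A x y) ≤ 6 * (n : ℝ) := by
    refine le_trans ?_ hdiff
    calc ∑ x ∈ U, ∑ y ∈ W, (ind H x y - S.A x y)
        ≤ ∑ x ∈ U, ∑ y, (ind H x y - S.A x y) :=
          sum_le_sum fun x _ => sum_le_univ_sum_of_nonneg fun y => hcnn x y
      _ ≤ _ := sum_le_univ_sum_of_nonneg fun x => sum_nonneg fun y _ => hcnn x y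
  have hsplit : ∑ x ∈ U, ∑ y ∈ W, ind H x y =
      ∑ x ∈ U, ∑ y ∈ W, S.A x y + ∑ x ∈ U, ∑ y ∈ W, (ind H x y - S.A x y) := by
    rw [← Finset.sum_add_distrib]
    refine Finset.sum_congr rfl (fun x _ => ?_)
    rw [← Finset.sum_add_distrib]
    exact Finset.sum_congr rfl (fun y _ => by ring)
  have hn4 : 12 / ε < n := lt_of_lt_of_le hM (by exact_mod_cast hn2)
  have hnpos : (0 : ℝ) < n := lt_trans (by positivity) hn4
  have h24 : 12 < ε * n := by
    rw [div_lt_iff₀ hε] at hn4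
    linarith
  have hbig : 6 * (n : ℝ) ≤ ε / 2 * (n : ℝ) ^ 2 := by nlinarith
  rw [hsplit]
  linarith

end Pool.Agent.Helper18.HD
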