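import Pool.Agent.Helper18.HD.Dev
import Pool.Agent.Helper18.SF.Ener

set_option autoImplicit false

/-! Few shadow pairs lie in dense pairs of cells. -/

namespace Pool.Agent.Helper18.HD

open Finset Pool.Agent.Helper18.SF

variable {V : Type} [Fintype V] [DecidableEq V]

open Classical in
/-- Pairs `v x` of the shadow whose third vertex is joined to more than `1/2 + η` of the cell
of `x`. -/
noncomputable def FF (S : Sys V) (η : ℝ) (Z : Finset V) (v x : V) : ℝ :=
  if S.A v x = 1 ∧ 1 / 2 + η < w S.A Z x (S.f v x) then 1 else 0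

theorem FF_nonneg (S : Sys V) (η : ℝ) (Z : Finset V) (v x : V) : 0 ≤ FF S η Z v x := by
  unfold FF
  split_ifs <;> norm_num

theorem FF_le_one (S : Sys V) (η : ℝ) (Z : Finset V) (v x : V) : FF S η Z v x ≤ 1 := by
  unfold FF
  split_ifs <;> norm_num

theorem FF_le_A (S : Sys V) (η : ℝ) (Z : Finset V) (v x : V) : FF S η Z v x ≤ S.A v x := by
  unfold FF
  split_ifs with h
  · rw [h.1]
  · exact S.A_nonneg v x

/-- one vertex and one cell -/
theorem cell_heavy (S : Sys V) (η : ℝ) (Z : Finset V) (x v : V) :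
    η * (∑ z ∈ cel (pat S.A Z) x, FF S η Z v z) ^ 2 ≤
      (∑ z ∈ cel (pat S.A Z) x, FF S η Z v z) / 2 +
        ∑ x' ∈ cel (pat S.A Z) x, S.A v x' * |dv S (FF S η Z) Z x' v| := by
  classical
  set C := cel (pat S.A Z) x with hC
  set F := FF S η Z with hF
  set d : ℝ := ∑ z ∈ C, F v z with hd
  set D : ℝ := ∑ x' ∈ C, S.A v x' * |dv S F Z x' v| with hD
  set X := C.filter (fun z => S.A v z = 1 ∧ 1 / 2 + η < w S.A Z z (S.f v z)) with hX
  have hconv : ∀ g : V → ℝ, ∑ z ∈ X, S.A v z * g z = ∑ z ∈ C, F v z * g z := by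
    intro g
    rw [hX, sum_filter]
    refine sum_congr rfl fun z _ => ?_
    simp only [hF, FF]
    split_ifs with h
    · rw [h.1]
    · rw [zero_mul]
  have hconv1 : ∑ z ∈ X, S.A v z = d := by
    have := hconv (fun _ => 1)
    simpa using this
  have h1 := S.twin_ineq' v X
  rw [hconv1, hconv (fun x' => ∑ z ∈ X, S.A v z * S.A z (S.f v x'))] at h1
  have h2 : ∀ x' ∈ C, ∑ z ∈ X, S.A v z * S.A z (S.f v x') =
      dv S F Z x' v + w S.A Z x' (S.f v x') * d := by
    intro x' hx'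
    have e1 : cel (pat S.A Z) x' = C := cel_congr (mem_cel.1 hx')
    rw [hconv (fun z => S.A z (S.f v x'))]
    unfold dv
    rw [e1]
    have e3 : ∑ z ∈ C, F v z * S.A z (S.f v x') = ∑ z ∈ C, F v z * S.A (S.f v x') z :=
      sum_congr rfl fun z _ => by rw [S.symm z]
    rw [e3]
    ring
  have h3 : (1 / 2 + η) * d * d - D ≤
      ∑ x' ∈ C, F v x' * ∑ z ∈ X, S.A v z * S.A z (S.f v x') := by
    have hd0 : 0 ≤ d := sum_nonneg fun z _ => FF_nonneg S η Z v z
    have e4 : (1 / 2 + η) * d * d - D =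
        ∑ x' ∈ C, (F v x' * ((1 / 2 + η) * d) - S.A v x' * |dv S F Z x' v|) := by
      rw [sum_sub_distrib, ← sum_mul]
      ring
    rw [e4]
    refine sum_le_sum fun x' hx' => ?_
    rw [h2 x' hx']
    have f0 := FF_nonneg S η Z v x'
    have f1 := FF_le_A S η Z v x'
    have f2 : -|dv S F Z x' v| ≤ dv S F Z x' v := neg_abs_le _
    have f3 : 0 ≤ |dv S F Z x' v| := abs_nonneg _
    have f4 : F v x' * ((1 / 2 + η) * d) ≤ F v x' * (w S.A Z x' (S.f v x') * d) := by
      by_cases h : S.A v x' = 1 ∧ 1 / 2 + η < w S.A Z x' (S.f v x')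
      · exact mul_le_mul_of_nonneg_left (mul_le_mul_of_nonneg_right h.2.le hd0) f0
      · have : F v x' = 0 := by simp only [hF, FF, if_neg h]
        rw [this, zero_mul, zero_mul]
    have f5 : F v x' * |dv S F Z x' v| ≤ S.A v x' * |dv S F Z x' v| :=
      mul_le_mul_of_nonneg_right f1 f3
    have f6 : F v x' * (-|dv S F Z x' v|) ≤ F v x' * dv S F Z x' v :=
      mul_le_mul_of_nonneg_left f2 f0
    calc F v x' * ((1 / 2 + η) * d) - S.A v x' * |dv S F Z x' v|
        ≤ F v x' * (w S.A Z x' (S.f v x') * d) - F v x' * |dv S F Z x' v| := by linarith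
      _ ≤ F v x' * (w S.A Z x' (S.f v x') * d) + F v x' * dv S F Z x' v := by linarith
      _ = _ := by ring
  nlinarith

theorem heavy_sum (S : Sys V) (η : ℝ) (hη : 0 < η) (Z : Finset V) (κ X : ℝ) (hκ : 0 < κ)
    (hX : ∑ x, (1 / ((cel (pat S.A Z) x).card : ℝ)) *
      ∑ v, S.A v x * |dv S (FF S η Z) Z x v| ≤ X) :
    ∑ x, ∑ v, FF S η Z v x ≤ κ * (Fintype.card V : ℝ) ^ 2 +
      (Fintype.card V : ℝ) * 2 ^ Z.card / (2 * κ * η) + X / (κ * η) := by
  set n : ℝ := (Fintype.card V : ℝ) with hn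
  have hn0 : 0 ≤ n := Nat.cast_nonneg _
  set c := pat S.A Z with hc
  set F := FF S η Z with hF
  set m : V → ℝ := fun x => ((cel c x).card : ℝ) with hm
  have hm0 : ∀ x, 0 < m x := fun x => cel_card_pos c x
  set D : V → ℝ := fun x' => ∑ v, S.A v x' * |dv S F Z x' v| with hD
  set Φ : V → ℝ := fun z => ∑ v, F v z with hΦ
  -- one vertex, one cell
  have h1 : ∀ x v, ∑ z ∈ cel c x, F v z ≤ κ * m x + 1 / (2 * κ * η) +
      (1 / (κ * η * m x)) * ∑ x' ∈ cel c x, S.A v x' * |dv S F Z x' v| := by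
    intro x v
    have h := cell_heavy S η Z x v
    set d : ℝ := ∑ z ∈ cel c x, F v z with hd
    set E : ℝ := ∑ x' ∈ cel c x, S.A v x' * |dv S F Z x' v| with hE
    have hmx := hm0 x
    have hd0 : 0 ≤ d := sum_nonneg fun z _ => FF_nonneg S η Z v z
    have hE0 : 0 ≤ E := sum_nonneg fun x' _ => mul_nonneg (S.A_nonneg _ _) (abs_nonneg _)
    have hdm : d ≤ m x := by
      calc d ≤ ∑ _z ∈ cel c x, (1 : ℝ) := sum_le_sum fun z _ => FF_le_one S η Z v z
        _ = m x := by simp [hm]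
    have hκη : 0 < κ * η * m x := by positivity
    have e0 : 0 ≤ 1 / (κ * η * m x) * E := by positivity
    have e1 : 0 ≤ 1 / (2 * κ * η) := by positivity
    rcases le_total d (κ * m x) with hle | hle
    · linarith
    · -- `κ m d ≤ d^2`
      have e2 : κ * m x * d ≤ d ^ 2 := by
        rw [sq]
        exact mul_le_mul_of_nonneg_right hle hd0
      have e3 : η * (κ * m x * d) ≤ m x / 2 + E := by
        have := mul_le_mul_of_nonneg_left e2 hη.le
        change η * d ^ 2 ≤ d / 2 + E at h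
        linarith
      have e4 : d ≤ (m x / 2 + E) / (κ * η * m x) := by
        rw [le_div_iff₀ hκη]
        calc d * (κ * η * m x) = η * (κ * m x * d) := by ring
          _ ≤ _ := e3
      have e5 : (m x / 2 + E) / (κ * η * m x) = 1 / (2 * κ * η) + 1 / (κ * η * m x) * E := by
        field_simp
      have e6 : 0 ≤ κ * m x := by positivity
      linarith
  -- one cell
  have h2 : ∀ x, ce c Φ x ≤ κ * n + n / (2 * κ * η) * (1 / m x) +
      (1 / (κ * η)) * (ce c D x * (1 / m x)) := by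
    intro x
    have hmx := hm0 x
    have h3 := sum_le_sum fun v (_ : v ∈ (univ : Finset V)) => h1 x v
    rw [sum_add_distrib, sum_add_distrib, sum_const, sum_const, card_univ, nsmul_eq_mul,
      nsmul_eq_mul, ← mul_sum, ← hn, sum_comm (s := (univ : Finset V)) (t := cel c x),
      sum_comm (s := (univ : Finset V)) (t := cel c x)] at h3
    change ∑ z ∈ cel c x, Φ z ≤ n * (κ * m x) + n * (1 / (2 * κ * η)) +
      1 / (κ * η * m x) * ∑ x' ∈ cel c x, D x' at h3
    rw [← card_mul_ce c Φ x, ← card_mul_ce c D x] at h3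
    change m x * ce c Φ x ≤ n * (κ * m x) + n * (1 / (2 * κ * η)) +
      1 / (κ * η * m x) * (m x * ce c D x) at h3
    have h4 : m x * ce c Φ x ≤ m x * (κ * n + n / (2 * κ * η) * (1 / m x) +
        (1 / (κ * η)) * (ce c D x * (1 / m x))) := by
      refine h3.trans (le_of_eq ?_)
      field_simp
    exact le_of_mul_le_mul_left h4 hmx
  -- all cells
  have h5 : ∑ x, ∑ v, F v x ≤ ∑ x, (κ * n + n / (2 * κ * η) * (1 / m x) +
      (1 / (κ * η)) * (ce c D x * (1 / m x))) := by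
    have e : ∑ x, ∑ v, F v x = ∑ x, ce c Φ x := (sum_ce c Φ).symm
    rw [e]
    exact sum_le_sum fun x _ => h2 x
  refine h5.trans ?_
  rw [sum_add_distrib, sum_add_distrib, sum_const, card_univ, nsmul_eq_mul, ← mul_sum,
    ← mul_sum, ← hn]
  have h7 : ∑ x, (1 / m x) ≤ 2 ^ Z.card := by
    calc ∑ x, 1 / m x = ((univ.image c).card : ℝ) := by rw [← sum_inv_card]
      _ ≤ _ := card_pat_le S.A Z
  have h8 : ∑ x, ce c D x * (1 / m x) ≤ X := by
    rw [sum_ce_mul c D (fun x => 1 / m x)]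
    · refine le_trans (le_of_eq ?_) hX
      exact sum_congr rfl fun x _ => mul_comm _ _
    · intro z z' h
      simp only [hm, cel_congr h]
  have a1 := mul_le_mul_of_nonneg_left h7 (show 0 ≤ n / (2 * κ * η) by positivity)
  have a2 := mul_le_mul_of_nonneg_left h8 (show 0 ≤ 1 / (κ * η) by positivity)
  have e1 : n * 2 ^ Z.card / (2 * κ * η) = n / (2 * κ * η) * 2 ^ Z.card := by ring
  have e2 : X / (κ * η) = 1 / (κ * η) * X := by ring
  have e3 : κ * n ^ 2 = n * (κ * n) := by ring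
  rw [e1, e2, e3]
  linarith

open Classical in
/-- Dense pairs carry as much weight of the averaged kernel as of the shadow. -/
theorem heavy_eq (S : Sys V) (η : ℝ) (Z : Finset V) :
    ∑ x, ∑ y, w S.A Z x y * (if 1 / 2 + η < w S.A Z x y then 1 else 0) =
      ∑ x, ∑ v, FF S η Z v x := by
  have h1 : ∀ y, ∑ x, w S.A Z x y * (if 1 / 2 + η < w S.A Z x y then (1 : ℝ) else 0) =
      ∑ x, S.A y x * (if 1 / 2 + η < w S.A Z x y then (1 : ℝ) else 0) := by
    intro y
    exact sum_ce_mul (pat S.A Z) (S.A y)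
      (fun x => if 1 / 2 + η < w S.A Z x y then (1 : ℝ) else 0) (fun z z' h => by
        have : w S.A Z z y = w S.A Z z' y := ce_congr h
        simp only [this])
  rw [sum_comm, sum_congr rfl fun y _ => h1 y, sum_comm]
  refine sum_congr rfl fun x _ => ?_
  have h2 : ∑ y, S.A y x * (if 1 / 2 + η < w S.A Z x y then (1 : ℝ) else 0) =
      ∑ y, S.A x y * (if 1 / 2 + η < w S.A Z x (S.f x y) then (1 : ℝ) else 0) := by
    rw [S.sum_swap x (fun y => if 1 / 2 + η < w S.A Z x y then (1 : ℝ) else 0)]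
    exact sum_congr rfl fun y _ => by rw [S.symm y x]
  rw [h2]
  refine sum_congr rfl fun v _ => ?_
  unfold FF
  rcases S.h01 x v with h | h
  · have h' : S.A v x = 0 := by rw [S.symm v x]; exact h
    rw [h, zero_mul, if_neg]
    rintro ⟨a, _⟩
    rw [h'] at a
    norm_num at a
  · have h' : S.A v x = 1 := by rw [S.symm v x]; exact h
    rw [h, one_mul, S.fs x v h]
    by_cases hw : 1 / 2 + η < w S.A Z x (S.f v x)
    · rw [if_pos hw, if_pos ⟨h', hw⟩]
    · rw [if_neg hw, if_neg (fun a => hw a.2)]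

/-- The shadow between two sets against the averaged kernel. -/
theorem on_sets (S : Sys V) (Z : Finset V) (r t : ℝ) (hr : 0 ≤ r) (ht : 0 ≤ t) (hrt : r ≤ t ^ 2)
    (h0 : ∀ u, q S.A (insert u Z) - q S.A Z ≤ r ^ 2 * (Fintype.card V : ℝ) ^ 2)
    (U W : Finset V) :
    ∑ x ∈ U, ∑ y ∈ W, S.A x y ≤
      ∑ x ∈ U, ∑ y ∈ W, w S.A Z x y + t * (Fintype.card V : ℝ) ^ 2 := by
  set n : ℝ := (Fintype.card V : ℝ) with hn
  have hn0 : 0 ≤ n := Nat.cast_nonneg _
  have hs := rows_small S Z (r ^ 2) (by positivity) h0 W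
  rw [Real.sqrt_sq hr, ← hn] at hs
  set D : V → ℝ := fun z => ∑ x ∈ W, (S.A x z - ce (pat S.A Z) (S.A x) z) with hD
  have hWn : (W.card : ℝ) ≤ n := by
    rw [hn]
    exact_mod_cast Finset.card_le_univ W
  have hUn : (U.card : ℝ) ≤ n := by
    rw [hn]
    exact_mod_cast Finset.card_le_univ U
  have h1 : ∑ z, (D z) ^ 2 ≤ t ^ 2 * n ^ 3 := by
    by_cases hc : W.card = 0
    · have hW : W = ∅ := Finset.card_eq_zero.mp hc
      simp only [hD, hW, Finset.sum_empty]
      simp only [ne_eq, OfNat.ofNat_ne_zero, not_false_eq_true, zero_pow, Finset.sum_const_zero]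
      positivity
    · have hp : (0 : ℝ) < W.card := by exact_mod_cast Nat.pos_of_ne_zero hc
      rw [div_le_iff₀ hp] at hs
      calc ∑ z, (D z) ^ 2 ≤ r * n ^ 2 * W.card := hs
        _ ≤ r * n ^ 2 * n := mul_le_mul_of_nonneg_left hWn (by positivity)
        _ ≤ t ^ 2 * n ^ 2 * n := by
            have : 0 ≤ n ^ 2 * n := by positivity
            nlinarith
        _ = _ := by ring
  have h2 : (∑ x ∈ U, D x) ^ 2 ≤ (t * n ^ 2) ^ 2 := by
    calc (∑ x ∈ U, D x) ^ 2 ≤ (U.card : ℝ) * ∑ x ∈ U, (D x) ^ 2 := sq_sum_le_card_mul_sum_sq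
      _ ≤ n * ∑ x, (D x) ^ 2 := by
          have hS : ∑ x ∈ U, (D x) ^ 2 ≤ ∑ x, (D x) ^ 2 :=
            Finset.sum_le_univ_sum_of_nonneg (fun x => sq_nonneg _)
          exact mul_le_mul hUn hS (Finset.sum_nonneg (fun x _ => sq_nonneg _)) hn0
      _ ≤ n * (t ^ 2 * n ^ 3) := mul_le_mul_of_nonneg_left h1 hn0
      _ = _ := by ring
  have h3 : ∑ x ∈ U, D x ≤ t * n ^ 2 := le_of_sq_le_sq_aux h2 (by positivity)
  have h4 : ∑ x ∈ U, ∑ y ∈ W, S.A x y = ∑ x ∈ U, ∑ y ∈ W, w S.A Z x y + ∑ x ∈ U, D x := by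
    rw [← Finset.sum_add_distrib]
    refine Finset.sum_congr rfl (fun x _ => ?_)
    simp only [hD]
    rw [← Finset.sum_add_distrib]
    refine Finset.sum_congr rfl (fun y _ => ?_)
    rw [S.symm x y]
    simp only [w]
    ring
  rw [h4]
  linarith

end Pool.Agent.Helper18.HD
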