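import Pool.Agent.Helper18.HD.Fin
import Pool.Agent.Helper29.ST.Fin

set_option autoImplicit false

/-! Near-extremal 3-graphs without four edges on seven vertices are quasirandom partial Latin
squares, half of whose cells are filled. -/

namespace Pool.Agent.Helper18.HD

open Finset Pool.Agent.Helper18.SF Pool.Agent.Helper29.ST

section cut
variable {V : Type} [Fintype V] [DecidableEq V]

/-- Indicator of pairs in different parts. -/
noncomputable def dif (part : V → Fin 3) (x y : V) : ℝ := if part x ≠ part y then 1 else 0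

theorem dif_nonneg (part : V → Fin 3) (x y : V) : 0 ≤ dif part x y := by
  unfold dif
  split_ifs <;> norm_num

/-- A sum over a set is the sum over its three parts. -/
theorem sum_parts (part : V → Fin 3) (U : Finset V) (g : V → ℝ) :
    ∑ x ∈ U, g x = ∑ i : Fin 3, ∑ x ∈ U.filter (fun x => part x = i), g x := by
  rw [← Finset.sum_fiberwise_of_maps_to (s := U) (t := univ) (g := part)
    (fun x _ => mem_univ _) g]

theorem upper_pair (S : Sys V) (part : V → Fin 3) (ε : ℝ)
    (hh : ∀ U W : Finset V, ∑ x ∈ U, ∑ y ∈ W, S.A x y ≤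
      (1 / 2) * ((U.card : ℝ) * (W.card : ℝ)) + ε * (Fintype.card V : ℝ) ^ 2)
    (hp : ∑ x, ∑ y, (if part x = part y then S.A x y else 0) ≤ ε * (Fintype.card V : ℝ) ^ 2)
    (U W : Finset V) (i j : Fin 3) :
    ∑ x ∈ U.filter (fun x => part x = i), ∑ y ∈ W.filter (fun y => part y = j),
      (S.A x y - (1 / 2) * dif part x y) ≤ ε * (Fintype.card V : ℝ) ^ 2 := by
  by_cases hij : i = j
  · subst hij
    have h1 : ∀ x ∈ U.filter (fun x => part x = i), ∀ y ∈ W.filter (fun y => part y = i),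
        S.A x y - (1 / 2) * dif part x y = if part x = part y then S.A x y else 0 := by
      intro x hx y hy
      have e : part x = part y := (mem_filter.mp hx).2.trans (mem_filter.mp hy).2.symm
      unfold dif
      rw [if_neg (not_not.mpr e), if_pos e]
      ring
    rw [sum_congr rfl (fun x hx => sum_congr rfl (fun y hy => h1 x hx y hy))]
    refine le_trans ?_ hp
    have nn : ∀ x y, 0 ≤ (if part x = part y then S.A x y else 0) := by
      intro x y
      split_ifs
      · exact S.A_nonneg x y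
      · exact le_refl _
    calc ∑ x ∈ U.filter (fun x => part x = i), ∑ y ∈ W.filter (fun y => part y = i),
          (if part x = part y then S.A x y else 0)
        ≤ ∑ x ∈ U.filter (fun x => part x = i), ∑ y, (if part x = part y then S.A x y else 0) :=
          sum_le_sum fun x _ => sum_le_univ_sum_of_nonneg fun y => nn x y
      _ ≤ _ := sum_le_univ_sum_of_nonneg fun x => sum_nonneg fun y _ => nn x y
  · have h1 : ∀ x ∈ U.filter (fun x => part x = i), ∀ y ∈ W.filter (fun y => part y = j),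
        S.A x y - (1 / 2) * dif part x y = S.A x y - 1 / 2 := by
      intro x hx y hy
      have e : part x ≠ part y := by
        rw [(mem_filter.mp hx).2, (mem_filter.mp hy).2]
        exact hij
      unfold dif
      rw [if_pos e]
      ring
    rw [sum_congr rfl (fun x hx => sum_congr rfl (fun y hy => h1 x hx y hy))]
    have h2 := hh (U.filter (fun x => part x = i)) (W.filter (fun y => part y = j))
    simp only [sum_sub_distrib, sum_const, nsmul_eq_mul]
    linarith

theorem upper_all (S : Sys V) (part : V → Fin 3) (ε : ℝ)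
    (hh : ∀ U W : Finset V, ∑ x ∈ U, ∑ y ∈ W, S.A x y ≤
      (1 / 2) * ((U.card : ℝ) * (W.card : ℝ)) + ε * (Fintype.card V : ℝ) ^ 2)
    (hp : ∑ x, ∑ y, (if part x = part y then S.A x y else 0) ≤ ε * (Fintype.card V : ℝ) ^ 2)
    (U W : Finset V) :
    ∑ x ∈ U, ∑ y ∈ W, (S.A x y - (1 / 2) * dif part x y) ≤
      9 * (ε * (Fintype.card V : ℝ) ^ 2) := by
  have h1 : ∑ x ∈ U, ∑ y ∈ W, (S.A x y - (1 / 2) * dif part x y) =
      ∑ i : Fin 3, ∑ j : Fin 3, ∑ x ∈ U.filter (fun x => part x = i),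
        ∑ y ∈ W.filter (fun y => part y = j), (S.A x y - (1 / 2) * dif part x y) := by
    rw [sum_parts part U]
    refine sum_congr rfl (fun i _ => ?_)
    rw [Finset.sum_comm (s := univ) (t := U.filter (fun x => part x = i))]
    refine sum_congr rfl (fun x _ => ?_)
    exact sum_parts part W _
  rw [h1]
  calc ∑ i : Fin 3, ∑ j : Fin 3, ∑ x ∈ U.filter (fun x => part x = i),
        ∑ y ∈ W.filter (fun y => part y = j), (S.A x y - (1 / 2) * dif part x y)
      ≤ ∑ _i : Fin 3, ∑ _j : Fin 3, ε * (Fintype.card V : ℝ) ^ 2 :=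
        sum_le_sum fun i _ => sum_le_sum fun j _ => upper_pair S part ε hh hp U W i j
    _ = _ := by
        simp only [sum_const, card_univ, Fintype.card_fin, nsmul_eq_mul]
        push_cast
        ring

/-- The number of pairs in different parts is at most `2 n ^ 2 / 3`. -/
theorem dif_total (part : V → Fin 3) :
    ∑ x, ∑ y, dif part x y ≤ 2 / 3 * (Fintype.card V : ℝ) ^ 2 := by
  set c : Fin 3 → ℝ := fun i => ((univ.filter (fun x => part x = i)).card : ℝ) with hc
  have hsum : ∑ i, c i = (Fintype.card V : ℝ) := by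
    have h := sum_parts part univ (fun _ => (1 : ℝ))
    simp only [sum_const, nsmul_eq_mul, mul_one, card_univ] at h
    exact h.symm
  have h1 : ∀ x, ∑ y, dif part x y = (Fintype.card V : ℝ) - c (part x) := by
    intro x
    have e1 : ∀ y, dif part x y = 1 - (if part y = part x then 1 else 0) := by
      intro y
      unfold dif
      by_cases h : part x = part y
      · rw [if_neg (not_not.mpr h), if_pos h.symm]
        norm_num
      · rw [if_pos h, if_neg (fun h' => h h'.symm)]
        norm_num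
    rw [sum_congr rfl (fun y _ => e1 y), sum_sub_distrib]
    simp [hc]
  have h2 : ∑ x, c (part x) = ∑ i, c i ^ 2 := by
    rw [sum_parts part univ (fun x => c (part x))]
    refine sum_congr rfl (fun i _ => ?_)
    rw [sum_congr rfl (fun x hx => by rw [(mem_filter.mp hx).2] : ∀ x ∈ univ.filter
      (fun x => part x = i), c (part x) = c i), sum_const, nsmul_eq_mul, sq]
  have h3 : ∑ x, ∑ y, dif part x y = (Fintype.card V : ℝ) ^ 2 - ∑ i, c i ^ 2 := by
    rw [sum_congr rfl (fun x _ => h1 x), sum_sub_distrib, h2, sum_const, card_univ,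
      nsmul_eq_mul, sq]
  rw [h3]
  rw [Fin.sum_univ_three] at hsum ⊢
  rw [← hsum]
  nlinarith [sq_nonneg (c 0 - c 1), sq_nonneg (c 0 - c 2), sq_nonneg (c 1 - c 2)]

theorem cut_sys (ε : ℝ) (hε : 0 < ε) : ∃ δ : ℝ, 0 < δ ∧ ∃ N : ℕ,
    ∀ (V : Type) [Fintype V] [DecidableEq V], N ≤ Fintype.card V → ∀ S : Sys V,
      (1 / 3 - δ) * (Fintype.card V : ℝ) ^ 2 ≤ ∑ x, ∑ y, S.A x y →
      ∃ part : V → Fin 3,
        (∀ i, |((univ.filter (fun x => part x = i)).card : ℝ) - (Fintype.card V : ℝ) / 3| ≤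
          ε * (Fintype.card V : ℝ)) ∧
        ∀ U W : Finset V, |∑ x ∈ U, ∑ y ∈ W, (S.A x y - (1 / 2) * dif part x y)| ≤
          ε * (Fintype.card V : ℝ) ^ 2 := by
  obtain ⟨δ, hδ, N, hN⟩ := stab_sys (ε / 20) (by positivity)
  obtain ⟨M, hM⟩ := half_sys (ε / 20) (by positivity)
  refine ⟨min δ (ε / 20), lt_min hδ (by positivity), max N M, fun V _ _ hV S hS => ?_⟩
  set n2 : ℝ := (Fintype.card V : ℝ) ^ 2 with hn2
  have hn0 : 0 ≤ n2 := by positivity
  have hn1 : 0 ≤ (Fintype.card V : ℝ) := Nat.cast_nonneg _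
  have d1 : min δ (ε / 20) * n2 ≤ δ * n2 := mul_le_mul_of_nonneg_right (min_le_left _ _) hn0
  have d2 : min δ (ε / 20) * n2 ≤ ε / 20 * n2 := mul_le_mul_of_nonneg_right (min_le_right _ _) hn0
  obtain ⟨part, hp1, hp2⟩ := hN V ((le_max_left _ _).trans hV) S (by nlinarith)
  have hup := upper_all S part (ε / 20)
    (fun U W => hM V ((le_max_right _ _).trans hV) S U W) hp2
  have htot : -(ε / 20 * n2) ≤ ∑ x, ∑ y, (S.A x y - (1 / 2) * dif part x y) := by
    have h1 := dif_total part
    have h2 : ∑ x, ∑ y, (S.A x y - (1 / 2) * dif part x y) =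
        ∑ x, ∑ y, S.A x y - (1 / 2) * ∑ x, ∑ y, dif part x y := by
      rw [mul_sum, ← sum_sub_distrib]
      refine sum_congr rfl (fun x _ => ?_)
      rw [mul_sum, ← sum_sub_distrib]
    rw [h2]
    nlinarith
  refine ⟨part, fun i => (hp1 i).trans (by nlinarith), fun U W => ?_⟩
  rw [abs_le]
  have hs : ∀ x, ∑ y, (S.A x y - (1 / 2) * dif part x y) =
      ∑ y ∈ W, (S.A x y - (1 / 2) * dif part x y) +
      ∑ y ∈ Wᶜ, (S.A x y - (1 / 2) * dif part x y) := fun x =>
    (Finset.sum_add_sum_compl W _).symm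
  have hsp : ∑ x, ∑ y, (S.A x y - (1 / 2) * dif part x y) =
      ∑ x ∈ U, ∑ y ∈ W, (S.A x y - (1 / 2) * dif part x y) +
      ∑ x ∈ Uᶜ, ∑ y ∈ W, (S.A x y - (1 / 2) * dif part x y) +
      ∑ x, ∑ y ∈ Wᶜ, (S.A x y - (1 / 2) * dif part x y) := by
    rw [sum_congr rfl (fun x _ => hs x), sum_add_distrib,
      ← Finset.sum_add_sum_compl U (fun x => ∑ y ∈ W, (S.A x y - (1 / 2) * dif part x y))]
  have u1 := hup U W
  have u2 := hup Uᶜ W
  have u3 := hup univ Wᶜ
  rw [← hn2] at u1 u2 u3
  rw [hsp] at htot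
  have e1 : 0 ≤ ε * n2 := by positivity
  constructor
  · nlinarith
  · nlinarith

end cut

/-- Edges with two vertices in one part give pairs of linked vertices in one part. -/
theorem edge_ind {n : ℕ} (H : Finset (Finset (Fin n))) (h3 : ∀ e ∈ H, e.card = 3)
    (h7 : ∀ W : Finset (Fin n), W.card ≤ 7 → (H.filter (fun e => e ⊆ W)).card ≤ 3)
    (part : Fin n → Fin 3) :
    2 * ((H.filter (fun e => e.image part ≠ univ)).card : ℝ) ≤
      ∑ x, ∑ y, (if part x = part y then ind H x y else 0) + 2 * (n : ℝ) := by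
  classical
  set B := H.filter (fun e => ∃ g ∈ H, g ≠ e ∧ 2 ≤ (e ∩ g).card) with hB
  have hb : B.card ≤ n := by
    have := link_bad_card H h3 h7
    rwa [Fintype.card_fin] at this
  set H' := H.filter (fun e => ¬ ∃ g ∈ H, g ≠ e ∧ 2 ≤ (e ∩ g).card) with hH'
  have hsub : ∀ e ∈ H', e ∈ H := fun e he => (mem_filter.mp he).1
  have hlin : ∀ e ∈ H', ∀ g ∈ H', e ≠ g → (e ∩ g).card ≤ 1 := by
    intro e he g hg hne
    by_contra hcon
    push Not at hcon
    exact (mem_filter.mp he).2 ⟨g, hsub g hg, hne.symm, hcon⟩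
  have h2 : (B.card : ℝ) ≤ (n : ℝ) := by exact_mod_cast hb
  -- the bad edges of `H'`
  set D := H'.filter (fun e => e.image part ≠ univ) with hD
  have hcov : (H.filter (fun e => e.image part ≠ univ)).card ≤ B.card + D.card := by
    refine le_trans (card_le_card ?_) (card_union_le B D)
    intro e he
    obtain ⟨heH, hep⟩ := mem_filter.mp he
    rw [mem_union]
    by_cases hbad : ∃ g ∈ H, g ≠ e ∧ 2 ≤ (e ∩ g).card
    · left; rw [hB, mem_filter]; exact ⟨heH, hbad⟩
    · right; rw [hD, mem_filter, hH', mem_filter]; exact ⟨⟨heH, hbad⟩, hep⟩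
  set Q := D.biUnion (fun e => e.offDiag.filter (fun p => part p.1 = part p.2)) with hQ
  have hdis : Set.PairwiseDisjoint (↑D)
      (fun e : Finset (Fin n) => e.offDiag.filter (fun p => part p.1 = part p.2)) := by
    intro e he g hg hne
    rw [Function.onFun, Finset.disjoint_left]
    intro p hp hq
    rw [mem_filter, mem_offDiag] at hp hq
    have he' : e ∈ H' := (mem_filter.mp (mem_coe.mp he)).1
    have hg' : g ∈ H' := (mem_filter.mp (mem_coe.mp hg)).1
    have h4 := hlin e he' g hg' hne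
    have h5 : ({p.1, p.2} : Finset (Fin n)) ⊆ e ∩ g := by
      intro z hz
      simp only [mem_insert, mem_singleton] at hz
      rw [mem_inter]
      rcases hz with rfl | rfl
      · exact ⟨hp.1.1, hq.1.1⟩
      · exact ⟨hp.1.2.1, hq.1.2.1⟩
    have h6 := card_le_card h5
    rw [card_pair hp.1.2.2] at h6
    omega
  have hQc : 2 * D.card ≤ Q.card := by
    rw [hQ, card_biUnion hdis, mul_comm, ← smul_eq_mul, ← sum_const]
    apply sum_le_sum
    intro e he
    exact two_pairs e (h3 e (hsub e (mem_filter.mp he).1)) part (mem_filter.mp he).2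
  have hsum : (Q.card : ℝ) ≤ ∑ x, ∑ y, (if part x = part y then ind H x y else 0) := by
    rw [← Fintype.sum_prod_type' (f := fun x y => if part x = part y then ind H x y else 0)]
    have h4 : (Q.card : ℝ) = ∑ p ∈ Q, (if part p.1 = part p.2 then ind H p.1 p.2 else 0) := by
      rw [card_eq_sum_ones]
      push_cast
      apply sum_congr rfl
      intro p hp
      rw [hQ, mem_biUnion] at hp
      obtain ⟨e, he, hpe⟩ := hp
      rw [mem_filter, mem_offDiag] at hpe
      rw [if_pos hpe.2]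
      unfold ind
      rw [if_pos ⟨hpe.1.2.2, e, hsub e (mem_filter.mp he).1, hpe.1.1, hpe.1.2.1⟩]
    rw [h4]
    apply sum_le_sum_of_subset_of_nonneg (subset_univ _)
    intro p _ _
    unfold ind
    split_ifs <;> norm_num
  have h5 : ((H.filter (fun e => e.image part ≠ univ)).card : ℝ) ≤ (B.card : ℝ) + (D.card : ℝ) := by
    exact_mod_cast hcov
  have h6 : 2 * (D.card : ℝ) ≤ (Q.card : ℝ) := by exact_mod_cast hQc
  linarith

/-- The number of pairs in different parts. -/
theorem dif_eq {n : ℕ} (part : Fin n → Fin 3) (U W : Finset (Fin n)) :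
    (((U ×ˢ W).filter (fun q => part q.1 ≠ part q.2)).card : ℝ) =
      ∑ x ∈ U, ∑ y ∈ W, dif part x y := by
  unfold dif
  rw [card_filter]
  push_cast
  rw [Finset.sum_product]

theorem stab_quasi (ε : ℝ) (hε : 0 < ε) : ∃ δ : ℝ, 0 < δ ∧ ∃ N : ℕ, ∀ n : ℕ, N ≤ n →
    ∀ H : Finset (Finset (Fin n)), (∀ e ∈ H, e.card = 3) →
      (∀ W : Finset (Fin n), W.card = 7 → (H.filter (fun e => e ⊆ W)).card < 4) →
      (1 / 18 - δ) * (n : ℝ) ^ 2 ≤ (H.card : ℝ) →
      ∃ part : Fin n → Fin 3,
        (∀ i : Fin 3, |((univ.filter (fun x => part x = i)).card : ℝ) - (n : ℝ) / 3| ≤ ε * n) ∧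
        ((H.filter (fun e => e.image part ≠ univ)).card : ℝ) ≤ ε * (n : ℝ) ^ 2 ∧
        ∀ U W : Finset (Fin n),
          |(((U ×ˢ W).filter (fun q => q.1 ≠ q.2 ∧ ∃ e ∈ H, q.1 ∈ e ∧ q.2 ∈ e)).card : ℝ) -
            (1 / 2) * (((U ×ˢ W).filter (fun q => part q.1 ≠ part q.2)).card : ℝ)| ≤
            ε * (n : ℝ) ^ 2 := by
  obtain ⟨δ, hδ, N, hN⟩ := cut_sys (ε / 4) (by positivity)
  obtain ⟨M, hM⟩ := exists_nat_gt (16 / ε + 12 / δ)
  refine ⟨δ / 12, by positivity, max N (max M 7), ?_⟩
  intro n hn H h3 h7 hH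
  have hn1 : N ≤ n := le_trans (le_max_left _ _) hn
  have hn2 : M ≤ n := le_trans (le_trans (le_max_left _ _) (le_max_right _ _)) hn
  have hn3 : 7 ≤ n := le_trans (le_trans (le_max_right _ _) (le_max_right _ _)) hn
  have hsm := small_of_seven hn3 H h7
  obtain ⟨S, hS1, hS2, hS3⟩ := exists_sys' H h3 hsm
  rw [Fintype.card_fin] at hS2 hS3
  have hn4 : 16 / ε + 12 / δ < n := lt_of_lt_of_le hM (by exact_mod_cast hn2)
  have p1 : 0 < 16 / ε := by positivity
  have p2 : 0 < 12 / δ := by positivity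
  have hnpos : (0 : ℝ) < n := by linarith
  have hεn : 16 < ε * n := by
    have : 16 / ε < n := by linarith
    rw [div_lt_iff₀ hε] at this
    linarith
  have hδn : 12 < δ * n := by
    have : 12 / δ < n := by linarith
    rw [div_lt_iff₀ hδ] at this
    linarith
  have hS4 : (1 / 3 - δ) * (n : ℝ) ^ 2 ≤ ∑ x, ∑ y, S.A x y := by
    have e1 : 12 * (n : ℝ) ≤ δ * (n : ℝ) ^ 2 := by nlinarith
    nlinarith
  obtain ⟨part, hp1, hp2⟩ := hN (Fin n) (by rw [Fintype.card_fin]; exact hn1) S
    (by rw [Fintype.card_fin]; exact hS4)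
  rw [Fintype.card_fin] at hp1 hp2
  have hAind : ∀ x y, S.A x y ≤ ind H x y := by
    intro x y
    unfold ind
    rcases S.h01 x y with h0 | h0
    · rw [h0]
      split_ifs <;> norm_num
    · rw [h0, if_pos (hS1 x y h0)]
  have hdiff : ∑ x, ∑ y, (ind H x y - S.A x y) ≤ 6 * (n : ℝ) := by
    have e1 : ∑ x, ∑ y, (ind H x y - S.A x y) =
        (((univ : Finset (Fin n × Fin n)).filter (fun p => (p.1 ≠ p.2 ∧
          ∃ e ∈ H, p.1 ∈ e ∧ p.2 ∈ e) ∧ S.A p.1 p.2 = 0)).card : ℝ) := by
      rw [card_filter]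
      push_cast
      rw [Fintype.sum_prod_type]
      refine Finset.sum_congr rfl (fun x _ => Finset.sum_congr rfl (fun y _ => ?_))
      unfold ind
      rcases S.h01 x y with h0 | h0
      · by_cases hp : (x ≠ y ∧ ∃ e ∈ H, x ∈ e ∧ y ∈ e)
        · rw [if_pos hp, if_pos ⟨hp, h0⟩, h0]
          norm_num
        · rw [if_neg hp, if_neg (fun h' => hp h'.1), h0]
          norm_num
      · have hp := hS1 x y h0
        rw [if_pos hp, if_neg (fun h' => by rw [h0] at h'; norm_num at h'), h0]
        norm_num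
    rw [e1]
    exact_mod_cast hS2
  have hcnn : ∀ x y, 0 ≤ ind H x y - S.A x y := fun x y => sub_nonneg.mpr (hAind x y)
  have hUW : ∀ U W : Finset (Fin n), ∑ x ∈ U, ∑ y ∈ W, (ind H x y - S.A x y) ≤ 6 * (n : ℝ) := by
    intro U W
    refine le_trans ?_ hdiff
    calc ∑ x ∈ U, ∑ y ∈ W, (ind H x y - S.A x y)
        ≤ ∑ x ∈ U, ∑ y, (ind H x y - S.A x y) :=
          sum_le_sum fun x _ => sum_le_univ_sum_of_nonneg fun y => hcnn x y
      _ ≤ _ := sum_le_univ_sum_of_nonneg fun x => sum_nonneg fun y _ => hcnn x y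
  have hUW0 : ∀ U W : Finset (Fin n), 0 ≤ ∑ x ∈ U, ∑ y ∈ W, (ind H x y - S.A x y) :=
    fun U W => sum_nonneg fun x _ => sum_nonneg fun y _ => hcnn x y
  -- the cut norm bound for the shadow of `H`
  have hcut : ∀ U W : Finset (Fin n),
      |∑ x ∈ U, ∑ y ∈ W, ind H x y - (1 / 2) * ∑ x ∈ U, ∑ y ∈ W, dif part x y| ≤
        ε / 4 * (n : ℝ) ^ 2 + 6 * (n : ℝ) := by
    intro U W
    have e1 : ∑ x ∈ U, ∑ y ∈ W, ind H x y - (1 / 2) * ∑ x ∈ U, ∑ y ∈ W, dif part x y =
        ∑ x ∈ U, ∑ y ∈ W, (S.A x y - (1 / 2) * dif part x y) +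
        ∑ x ∈ U, ∑ y ∈ W, (ind H x y - S.A x y) := by
      rw [mul_sum, ← sum_sub_distrib, ← sum_add_distrib]
      refine sum_congr rfl (fun x _ => ?_)
      rw [mul_sum, ← sum_sub_distrib, ← sum_add_distrib]
      exact sum_congr rfl (fun y _ => by ring)
    rw [e1]
    have h1 := hp2 U W
    have h2 := hUW U W
    have h3 := hUW0 U W
    rw [abs_le] at h1 ⊢
    constructor
    · linarith [h1.1]
    · linarith [h1.2]
  have hn5 : 16 * (n : ℝ) ≤ ε * (n : ℝ) ^ 2 := by nlinarith
  refine ⟨part, fun i => (hp1 i).trans (by nlinarith), ?_, ?_⟩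
  · have hb := edge_ind H h3 hsm part
    have hsame : ∑ x, ∑ y, (if part x = part y then ind H x y else 0) ≤
        3 * (ε / 4 * (n : ℝ) ^ 2 + 6 * (n : ℝ)) := by
      have e1 : ∑ x, ∑ y, (if part x = part y then ind H x y else 0) =
          ∑ i : Fin 3, ∑ x ∈ univ.filter (fun x => part x = i),
            ∑ y ∈ univ.filter (fun y => part y = i), ind H x y := by
        rw [sum_parts part univ]
        refine sum_congr rfl (fun i _ => sum_congr rfl (fun x hx => ?_))
        rw [sum_filter]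
        refine sum_congr rfl (fun y _ => ?_)
        rw [(mem_filter.mp hx).2]
        by_cases h : i = part y
        · rw [if_pos h, if_pos h.symm]
        · rw [if_neg h, if_neg (fun h' => h h'.symm)]
      rw [e1]
      have e2 : ∀ i : Fin 3, ∑ x ∈ univ.filter (fun x => part x = i),
          ∑ y ∈ univ.filter (fun y => part y = i), ind H x y ≤
          ε / 4 * (n : ℝ) ^ 2 + 6 * (n : ℝ) := by
        intro i
        have h1 := hcut (univ.filter (fun x => part x = i)) (univ.filter (fun y => part y = i))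
        have h2 : ∑ x ∈ univ.filter (fun x => part x = i),
            ∑ y ∈ univ.filter (fun y => part y = i), dif part x y = 0 := by
          refine sum_eq_zero (fun x hx => sum_eq_zero (fun y hy => ?_))
          unfold dif
          rw [if_neg (not_not.mpr ((mem_filter.mp hx).2.trans (mem_filter.mp hy).2.symm))]
        rw [h2, mul_zero, sub_zero] at h1
        exact (le_abs_self _).trans h1
      calc ∑ i : Fin 3, ∑ x ∈ univ.filter (fun x => part x = i),
            ∑ y ∈ univ.filter (fun y => part y = i), ind H x y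
          ≤ ∑ _i : Fin 3, (ε / 4 * (n : ℝ) ^ 2 + 6 * (n : ℝ)) := sum_le_sum fun i _ => e2 i
        _ = _ := by
            simp only [sum_const, card_univ, Fintype.card_fin, nsmul_eq_mul]
            push_cast
            ring
    nlinarith
  · intro U W
    have hL : (((U ×ˢ W).filter (fun q => q.1 ≠ q.2 ∧ ∃ e ∈ H, q.1 ∈ e ∧ q.2 ∈ e)).card : ℝ) =
        ∑ x ∈ U, ∑ y ∈ W, ind H x y := links_eq H U W
    rw [hL, dif_eq]
    refine (hcut U W).trans ?_
    nlinarith

end Pool.Agent.Helper18.HD
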